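import Mathlib
import Pool.Agent.H32.KernelExtC

set_option autoImplicit false

namespace Pool.Agent.Results.MP_0d1f0b_an.NoKernelExtension

open Filter Topology

/-- The open upper half plane. -/
def UHP : Set ℂ := {z : ℂ | 0 < z.im}

/-- Non-constant inner functions of the upper half plane: analytic, bounded by one, and of
boundary modulus one almost everywhere on the real line. -/
structure IsInner (Th : ℂ → ℂ) : Prop where
  /-- analytic in the half plane -/
  analytic : DifferentiableOn ℂ Th UHP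
  /-- bounded by one -/
  bound : ∀ z ∈ UHP, ‖Th z‖ ≤ 1
  /-- the boundary values have modulus one almost everywhere -/
  boundary : ∀ᵐ x : ℝ, Tendsto (fun y : ℝ => ‖Th ((x : ℂ) + (y : ℂ) * Complex.I)‖) (𝓝[>] 0) (𝓝 1)
  /-- not constant -/
  nonconstant : ∃ z ∈ UHP, ∃ w ∈ UHP, Th z ≠ Th w

/-- The value at `m` of the reproducing kernel of the model space `K_Θ` at the point `l`
(the kernel of problem MP_0d1f0b_an with the constant `i / (2 π)`). -/
noncomputable def kernelValue (Th : ℂ → ℂ) (l m : ℂ) : ℂ :=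
  Complex.I / (2 * (Real.pi : ℂ)) * (1 - starRingEnd ℂ (Th l) * Th m) / (m - starRingEnd ℂ l)

/-- `H` together with the vectors `k l` (for `l` in the upper half plane) is the model space `K_Θ`
with its reproducing kernels, up to a unitary operator: the inner products of the kernels are the
values of the kernels, and the kernels span a dense subspace. -/
structure IsModelSpace (Th : ℂ → ℂ) (H : Type) [NormedAddCommGroup H] [InnerProductSpace ℂ H]
    (k : ℂ → H) : Prop where
  /-- the value of `k l` at `m` is the inner product of `k l` with `k m` -/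
  inner_eq : ∀ l ∈ UHP, ∀ m ∈ UHP, inner ℂ (k m) (k l) = kernelValue Th l m
  /-- the kernels span a dense subspace -/
  dense : closure (Submodule.span ℂ (k '' UHP) : Set H) = Set.univ

/-- The vectors `k z`, `z ∈ S`, form a Riesz sequence after normalisation: the norm of every
finite linear combination is comparable with the square root of `∑ |a z|² ‖k z‖²`; equivalently
(theorem of Koethe and Toeplitz) they are an unconditional basis of their closed span. -/
def IsUnconditional {H : Type} [NormedAddCommGroup H] [InnerProductSpace ℂ H] (k : ℂ → H)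
    (S : Set ℂ) : Prop :=
  ∃ c C : ℝ, 0 < c ∧ 0 < C ∧ ∀ s : Finset ℂ, (↑s : Set ℂ) ⊆ S → ∀ a : ℂ → ℂ,
    c * ∑ z ∈ s, ‖a z‖ ^ 2 * ‖k z‖ ^ 2 ≤ ‖∑ z ∈ s, a z • k z‖ ^ 2 ∧
    ‖∑ z ∈ s, a z • k z‖ ^ 2 ≤ C * ∑ z ∈ s, ‖a z‖ ^ 2 * ‖k z‖ ^ 2

/-- The closed linear span of the vectors `k z`, `z ∈ S`, is the whole space. -/
def IsTotal {H : Type} [NormedAddCommGroup H] [InnerProductSpace ℂ H] (k : ℂ → H)
    (S : Set ℂ) : Prop :=
  closure (Submodule.span ℂ (k '' S) : Set H) = Set.univ

/-- the kernels of the example -/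
noncomputable def G (z w : ℂ) : ℂ := kernelValue H32.KE.Th z w

section

variable {H : Type} [NormedAddCommGroup H] [InnerProductSpace ℂ H] {k : ℂ → H}

lemma double (hk : IsModelSpace H32.KE.Th H k) (s : Finset ℂ) (hs : (↑s : Set ℂ) ⊆ UHP)
    (a : ℂ → ℂ) :
    (∑ z ∈ s, ∑ w ∈ s, a z * starRingEnd ℂ (a w) * G z w) =
      inner ℂ (∑ z ∈ s, a z • k z) (∑ z ∈ s, a z • k z) := by
  rw [sum_inner, Finset.sum_comm]
  apply Finset.sum_congr rfl
  intro w hw
  rw [inner_sum]
  apply Finset.sum_congr rfl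
  intro z hz
  rw [inner_smul_left, inner_smul_right, hk.inner_eq z (hs hz) w (hs hw)]
  unfold G
  ring

lemma double_re (hk : IsModelSpace H32.KE.Th H k) (s : Finset ℂ) (hs : (↑s : Set ℂ) ⊆ UHP)
    (a : ℂ → ℂ) :
    (∑ z ∈ s, ∑ w ∈ s, a z * starRingEnd ℂ (a w) * G z w).re = ‖∑ z ∈ s, a z • k z‖ ^ 2 := by
  rw [double hk s hs a, inner_self_eq_norm_sq_to_K]
  norm_cast

lemma diag (hk : IsModelSpace H32.KE.Th H k) (z : ℂ) (hz : z ∈ UHP) :
    (G z z).re = ‖k z‖ ^ 2 := by
  have h := hk.inner_eq z hz z hz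
  unfold G
  rw [← h, inner_self_eq_norm_sq_to_K]
  norm_cast

lemma diagSum (hk : IsModelSpace H32.KE.Th H k) (s : Finset ℂ) (hs : (↑s : Set ℂ) ⊆ UHP)
    (a : ℂ → ℂ) :
    ∑ z ∈ s, ‖a z‖ ^ 2 * (G z z).re = ∑ z ∈ s, ‖a z‖ ^ 2 * ‖k z‖ ^ 2 := by
  apply Finset.sum_congr rfl
  intro z hz
  rw [diag hk z (hs hz)]

lemma dens (hk : IsModelSpace H32.KE.Th H k) (w : ℂ) (hw : w ∈ UHP) (s : Finset ℂ)
    (hs : (↑s : Set ℂ) ⊆ UHP) (a : ℂ → ℂ) :
    (G w w - ∑ z ∈ s, starRingEnd ℂ (a z) * G w z - ∑ z ∈ s, a z * G z w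
      + ∑ z ∈ s, ∑ v ∈ s, a z * starRingEnd ℂ (a v) * G z v).re
      = ‖k w - ∑ z ∈ s, a z • k z‖ ^ 2 := by
  have h1 : G w w = inner ℂ (k w) (k w) := (hk.inner_eq w hw w hw).symm
  have h2 : ∑ z ∈ s, starRingEnd ℂ (a z) * G w z = inner ℂ (∑ z ∈ s, a z • k z) (k w) := by
    rw [sum_inner]
    apply Finset.sum_congr rfl
    intro z hz
    rw [inner_smul_left, hk.inner_eq w hw z (hs hz)]
    rfl
  have h3 : ∑ z ∈ s, a z * G z w = inner ℂ (k w) (∑ z ∈ s, a z • k z) := by
    rw [inner_sum]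
    apply Finset.sum_congr rfl
    intro z hz
    rw [inner_smul_right, hk.inner_eq z (hs hz) w hw]
    rfl
  rw [h1, h2, h3, double hk s hs a]
  have h4 : inner ℂ (k w) (k w) - inner ℂ (∑ z ∈ s, a z • k z) (k w) -
      inner ℂ (k w) (∑ z ∈ s, a z • k z) +
      inner ℂ (∑ z ∈ s, a z • k z) (∑ z ∈ s, a z • k z) =
      inner ℂ (k w - ∑ z ∈ s, a z • k z) (k w - ∑ z ∈ s, a z • k z) := by
    rw [inner_sub_left, inner_sub_right, inner_sub_right]
    ring
  rw [h4, inner_self_eq_norm_sq_to_K]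
  norm_cast

end

/-- entrywise conjugate of the kernel vectors of the library -/
noncomputable def yv (z : ℂ) (j : ℕ) : EuclideanSpace ℂ (Fin (j+2)) :=
  WithLp.toLp 2 (fun i => starRingEnd ℂ (H32.KE.gv z j i))

lemma norm_yv (z : ℂ) (j : ℕ) : ‖yv z j‖ = ‖H32.KE.gv z j‖ := by
  rw [EuclideanSpace.norm_eq, EuclideanSpace.norm_eq]
  congr 1
  apply Finset.sum_congr rfl
  intro i _
  unfold yv
  simp

/-- the conjugate vectors as elements of the Hilbert space -/
noncomputable def yk (z : ℂ) : H32.KE.H :=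
  ⟨fun j => yv z j, by
    have h := lp.memℓp (H32.KE.gv z)
    apply memℓp_gen
    have h2 := h.summable (by norm_num)
    refine h2.congr (fun j => ?_)
    rw [norm_yv]⟩

lemma yk_apply (z : ℂ) (j : ℕ) : yk z j = yv z j := rfl

lemma inner_yk (l m : ℂ) : inner ℂ (yk m) (yk l) = inner ℂ (H32.KE.gv l) (H32.KE.gv m) := by
  rw [lp.inner_eq_tsum, lp.inner_eq_tsum]
  apply tsum_congr
  intro j
  rw [yk_apply, yk_apply, PiLp.inner_apply, PiLp.inner_apply]
  apply Finset.sum_congr rfl
  intro i _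
  unfold yv
  simp only [RCLike.inner_apply, Complex.conj_conj]
  ring

lemma inner_yk_eq {l m : ℂ} (hl : l ∈ UHP) (hm : m ∈ UHP) :
    inner ℂ (yk m) (yk l) = kernelValue H32.KE.Th l m := by
  rw [inner_yk]
  unfold kernelValue
  rw [H32.KE.G_eq hl hm]
  rfl

/-- the closed span of the kernels -/
noncomputable def KT : Submodule ℂ H32.KE.H := (Submodule.span ℂ (yk '' UHP)).topologicalClosure

open Classical in
/-- the kernels in their closed span -/
noncomputable def kk (z : ℂ) : KT :=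
  if hz : z ∈ UHP then ⟨yk z, Submodule.le_topologicalClosure _ (Submodule.subset_span ⟨z, hz, rfl⟩)⟩
  else 0

lemma kk_coe {z : ℂ} (hz : z ∈ UHP) : ((kk z : KT) : H32.KE.H) = yk z := by
  unfold kk
  rw [dif_pos hz]

lemma kk_model : IsModelSpace H32.KE.Th KT kk := by
  refine ⟨?_, ?_⟩
  · intro l hl m hm
    rw [Submodule.coe_inner, kk_coe hl, kk_coe hm]
    exact inner_yk_eq hl hm
  · rw [Set.eq_univ_iff_forall]
    rintro ⟨x, hx⟩
    rw [Metric.mem_closure_iff]
    intro ε hε
    have hx' : x ∈ closure (Submodule.span ℂ (yk '' UHP) : Set H32.KE.H) := hx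
    rw [Metric.mem_closure_iff] at hx'
    obtain ⟨y, hy, hxy⟩ := hx' ε hε
    have hyK : y ∈ KT := Submodule.le_topologicalClosure _ hy
    refine ⟨⟨y, hyK⟩, ?_, ?_⟩
    · have himg : (yk '' UHP) = KT.subtype '' (kk '' UHP) := by
        ext v
        constructor
        · rintro ⟨z, hz, rfl⟩
          exact ⟨kk z, ⟨z, hz, rfl⟩, kk_coe hz⟩
        · rintro ⟨_, ⟨z, hz, rfl⟩, rfl⟩
          exact ⟨z, hz, (kk_coe hz).symm⟩
      have hy2 : y ∈ Submodule.map KT.subtype (Submodule.span ℂ (kk '' UHP)) := by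
        rw [Submodule.map_span, ← himg]
        exact hy
      obtain ⟨y', hy', e⟩ := hy2
      have : y' = ⟨y, hyK⟩ := Subtype.ext e
      rw [← this]
      exact hy'
    · rw [Subtype.dist_eq]
      exact hxy

lemma th_nonconst : ∃ z ∈ UHP, ∃ w ∈ UHP, H32.KE.Th z ≠ H32.KE.Th w := by
  by_contra hcon
  push Not at hcon
  have hI : Complex.I ∈ UHP := by simp [UHP]
  have hI' : 0 < Complex.I.im := by simp
  obtain ⟨x, hx⟩ := H32.KE.Th_boundary.exists
  have hev : ∀ᶠ y : ℝ in 𝓝[>] 0,
      ‖H32.KE.Th ((x : ℂ) + (y : ℂ) * Complex.I)‖ = ‖H32.KE.Th Complex.I‖ := by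
    filter_upwards [self_mem_nhdsWithin] with y hy
    rw [hcon _ (show ((x : ℂ) + (y : ℂ) * Complex.I) ∈ UHP by
      have : 0 < y := hy
      simpa [UHP] using this) _ hI]
  have h1 : ‖H32.KE.Th Complex.I‖ = 1 :=
    tendsto_nhds_unique (Tendsto.congr' (hev.mono fun y hy => hy.symm) tendsto_const_nhds |>.congr'
      (Eventually.of_forall fun _ => rfl)) hx
  have h2 : starRingEnd ℂ (H32.KE.Th Complex.I) * H32.KE.Th Complex.I = 1 := by
    rw [mul_comm, Complex.mul_conj, Complex.normSq_eq_norm_sq, h1]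
    norm_num
  have h3 := H32.KE.G_eq hI' hI'
  rw [h2, sub_self, mul_zero, zero_div] at h3
  have h4 : H32.KE.al Complex.I • H32.KE.X Complex.I = 0 := inner_self_eq_zero.mp h3.symm
  rcases smul_eq_zero.mp h4 with h5 | h5
  · exact H32.KE.al_ne hI' h5
  · have := H32.KE.X_pos hI'
    rw [h5, norm_zero] at this
    exact lt_irrefl _ this

/-- There are a non-constant inner function `Θ` and a set `σ` in the upper half plane such that, in
the model space `K_Θ`, the kernels at the points of `σ` are an unconditional basis of their closed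
span, but for no larger set `S` are the kernels at the points of `S` an unconditional basis of
`K_Θ`. -/
theorem result : ∃ (Th : ℂ → ℂ) (sigma : Set ℂ), IsInner Th ∧ sigma ⊆ UHP ∧
    (∃ (H : Type) (_ : NormedAddCommGroup H) (_ : InnerProductSpace ℂ H) (_ : CompleteSpace H)
      (k : ℂ → H), IsModelSpace Th H k) ∧
    ∀ (H : Type) [NormedAddCommGroup H] [InnerProductSpace ℂ H] (k : ℂ → H),
      IsModelSpace Th H k →
        IsUnconditional k sigma ∧
        ∀ S : Set ℂ, sigma ⊆ S → S ⊆ UHP → IsUnconditional k S → ¬ IsTotal k S := by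
  have hc := H32.KE.counterexample G (fun _ _ => rfl)
  refine ⟨H32.KE.Th, H32.KE.sig, ⟨H32.KE.differentiableOn_Th, fun z hz => H32.KE.norm_Th_le hz,
    H32.KE.Th_boundary, th_nonconst⟩, H32.KE.sig_uhp, ⟨KT, inferInstance, inferInstance, ?_, kk,
    kk_model⟩, ?_⟩
  · exact (Submodule.isClosed_topologicalClosure _).completeSpace_coe
  · intro H _ _ k hk
    refine ⟨⟨1/20, 5, by norm_num, by norm_num, ?_⟩, ?_⟩
    · intro s hs a
      have h := hc.1 s hs a
      have hs' : (↑s : Set ℂ) ⊆ UHP := fun z hz => H32.KE.sig_uhp (hs hz)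
      rw [double_re hk s hs' a, diagSum hk s hs' a] at h
      exact h
    · rintro S hsS hSU ⟨c, C, hc0, hC0, hR⟩ htot
      refine hc.2 S hsS hSU c C hc0 hC0 ?_ ?_
      · intro s hs a
        have hs' : (↑s : Set ℂ) ⊆ UHP := fun z hz => hSU (hs hz)
        rw [double_re hk s hs' a, diagSum hk s hs' a]
        exact hR s hs a
      · intro w hw ε hε
        have hwcl : k w ∈ closure (Submodule.span ℂ (k '' S) : Set H) := by
          unfold IsTotal at htot
          rw [htot]
          trivial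
        rw [Metric.mem_closure_iff] at hwcl
        obtain ⟨y, hy, hwy⟩ := hwcl (Real.sqrt ε) (Real.sqrt_pos.mpr hε)
        obtain ⟨l, hl, hly⟩ := (Finsupp.mem_span_image_iff_linearCombination ℂ).mp hy
        have hsup : (↑l.support : Set ℂ) ⊆ S := (Finsupp.mem_supported ℂ l).mp hl
        refine ⟨l.support, hsup, fun z => l z, ?_⟩
        have hs' : (↑l.support : Set ℂ) ⊆ UHP := fun z hz => hSU (hsup hz)
        have hy' : y = ∑ z ∈ l.support, l z • k z := by
          rw [← hly, Finsupp.linearCombination_apply, Finsupp.sum]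
        rw [dens hk w hw l.support hs' (fun z => l z), ← hy']
        rw [dist_eq_norm] at hwy
        calc ‖k w - y‖ ^ 2 < (Real.sqrt ε) ^ 2 := by
              apply pow_lt_pow_left₀ hwy (norm_nonneg _) (by norm_num)
          _ = ε := Real.sq_sqrt hε.le

end Pool.Agent.Results.MP_0d1f0b_an.NoKernelExtension
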